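import Pool.Agent.Helper22.TW.Stmts

/-!
# EXTF: extension of embeddings, with a prescribed value
-/

set_option autoImplicit false

namespace Pool.Agent.Helper22.TW

open Pool.Agent.Helper14.BSC Polynomial

theorem st_EXTF : ST_EXTF := by
  classical
  intro F F' _ _ _ i hfg halg p _ σ₀ E hEfd hE s w hw hG
  letI : Algebra F F' := i.toAlgebra
  letI : Algebra F ℂ_[p] := σ₀.toAlgebra
  have hint : ∀ a : F', IsIntegral F a := by
    intro a
    obtain ⟨G, hG0, hGa⟩ := halg a
    apply IsAlgebraic.isIntegral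
    refine ⟨G, hG0, ?_⟩
    rw [aeval_def]
    exact hGa
  have hsplit : ∀ a : F', IsIntegral F a ∧
      ((minpoly F a).map (algebraMap F ℂ_[p])).Splits := by
    intro a
    exact ⟨hint a, IsAlgClosed.splits _⟩
  have hy : aeval w (minpoly F s) = 0 := by
    rw [aeval_def]
    apply hG
    have := minpoly.aeval F s
    rw [aeval_def] at this
    exact this
  obtain ⟨φ, hφ⟩ := IntermediateField.exists_algHom_of_splits_of_aeval hsplit hy
  obtain ⟨T, hT⟩ := hfg
  let A : IntermediateField ℚ_[p] ℂ_[p] :=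
    IntermediateField.adjoin ℚ_[p] ((fun a => φ a) '' (T : Set F'))
  have hcomm : ∀ a, φ (i a) = σ₀ a := fun a => φ.commutes a
  have hEint : ∀ z ∈ E, IsIntegral ℚ_[p] z := by
    intro z hz
    have h1 : IsIntegral ℚ_[p] (⟨z, hz⟩ : E) := Algebra.IsIntegral.isIntegral _
    exact h1.map E.val
  have hAint : ∀ z ∈ (fun a => φ a) '' (T : Set F'), IsIntegral ℚ_[p] z := by
    rintro z ⟨a, _, rfl⟩
    have h1 : IsIntegral E (φ a) := by
      obtain ⟨G, hGm, hGa⟩ := hint a
      let τ : F →+* E :=
        { toFun := fun b => ⟨σ₀ b, hE b⟩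
          map_one' := by apply Subtype.ext; exact map_one σ₀
          map_mul' := by intro x y; apply Subtype.ext; exact map_mul σ₀ x y
          map_zero' := by apply Subtype.ext; exact map_zero σ₀
          map_add' := by intro x y; apply Subtype.ext; exact map_add σ₀ x y }
      refine ⟨G.map τ, hGm.map τ, ?_⟩
      rw [eval₂_map]
      have h2 : (algebraMap E ℂ_[p]).comp τ = (φ : F' →+* ℂ_[p]).comp i := by
        ext b
        show σ₀ b = φ (i b)
        exact (hcomm b).symm
      rw [h2]
      have h3 : G.eval₂ ((φ : F' →+* ℂ_[p]).comp i) ((φ : F' →+* ℂ_[p]) a) =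
        (φ : F' →+* ℂ_[p]) (G.eval₂ i a) := by
        rw [hom_eval₂]
      have h4 : G.eval₂ i a = 0 := hGa
      rw [h4, map_zero] at h3
      exact h3
    exact isIntegral_trans (R := ℚ_[p]) (A := E) _ h1
  haveI : Finite ((fun a => φ a) '' (T : Set F')) := (T.finite_toSet.image _).to_subtype
  haveI : FiniteDimensional ℚ_[p] A := IntermediateField.finiteDimensional_adjoin hAint
  refine ⟨(φ : F' →+* ℂ_[p]), E ⊔ A, IntermediateField.finiteDimensional_sup E A, le_sup_left,
    ?_, hcomm, hφ⟩
  have hmem : ∀ a ∈ T, φ a ∈ E ⊔ A := by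
    intro a ha
    exact (le_sup_right : A ≤ E ⊔ A) (IntermediateField.subset_adjoin _ _ ⟨a, ha, rfl⟩)
  let S : Subfield F' := Subfield.comap (φ : F' →+* ℂ_[p]) (E ⊔ A).toSubfield
  let S' : IntermediateField ℚ F' := Subfield.toIntermediateField S (by
    intro q
    show φ (algebraMap ℚ F' q) ∈ E ⊔ A
    have h1 : φ (algebraMap ℚ F' q) = (q : ℂ_[p]) := by
      rw [eq_ratCast, map_ratCast]
    rw [h1]
    exact SubfieldClass.ratCast_mem _ q)
  have hle : (⊤ : IntermediateField ℚ F') ≤ S' := by
    rw [← hT, IntermediateField.adjoin_le_iff]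
    intro a ha
    exact hmem a ha
  intro x
  exact hle (IntermediateField.mem_top : x ∈ (⊤ : IntermediateField ℚ F'))

end Pool.Agent.Helper22.TW
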