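import Pool.Agent.Helper22.TW.Stmts

/-!
# LEV: elements fixed over all constants are fixed over finitely many constants
-/

set_option autoImplicit false

namespace Pool.Agent.Helper22.TW

open Pool.Agent.Helper14.BSC Polynomial

section

variable {k Ω : Type} [Field k] [Field Ω] [Algebra k Ω]

/-- the stabilizer of one algebraic element as a set -/
def lev_C (a : Acl k Ω) : Set (GG k Ω) := {g | g a = a}

theorem lev_stab_open (E : Finset (Acl k Ω)) :
    IsOpen ((Stab (E : Set (Acl k Ω)) : Subgroup (GG k Ω)) : Set (GG k Ω)) := by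
  classical
  have hfd : FiniteDimensional k (IntermediateField.adjoin k (E : Set (Acl k Ω))) := by
    apply IntermediateField.finiteDimensional_adjoin
    intro x _
    exact Algebra.IsIntegral.isIntegral x
  have h1 := IntermediateField.fixingSubgroup_isOpen
    (IntermediateField.adjoin k (E : Set (Acl k Ω)))
  have h2 : ((IntermediateField.adjoin k (E : Set (Acl k Ω))).fixingSubgroup) ≤
      Stab (E : Set (Acl k Ω)) := by
    intro g hg a ha
    rw [IntermediateField.mem_fixingSubgroup_iff] at hg
    exact hg a (IntermediateField.subset_adjoin k _ ha)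
  exact Subgroup.isOpen_mono h2 h1

theorem lev_C_closed (a : Acl k Ω) : IsClosed (lev_C a) := by
  have h := lev_stab_open (k := k) (Ω := Ω) {a}
  have h2 : IsClosed ((Stab (({a} : Finset (Acl k Ω)) : Set (Acl k Ω)) : Subgroup (GG k Ω)) :
      Set (GG k Ω)) := OpenSubgroup.isClosed ⟨Stab _, h⟩
  have h3 : ((Stab (({a} : Finset (Acl k Ω)) : Set (Acl k Ω)) : Subgroup (GG k Ω)) :
      Set (GG k Ω)) = lev_C a := by
    ext g
    constructor
    · intro hg
      exact hg a (by simp)
    · intro hg b hb
      have hb' : b = a := by simpa using hb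
      rw [hb']
      exact hg
  rw [← h3]
  exact h2

theorem lev_main [CharZero k] [IsAlgClosed Ω] (D : Sec k Ω) (K : Set (Acl k Ω)) (x : Ω)
    (hx : x ∈ NN D K) : ∃ T : Finset (Acl k Ω), (T : Set (Acl k Ω)) ⊆ K ∧
      ∀ g : GG k Ω, (∀ a ∈ T, g a = a) → D.s g x = x := by
  classical
  haveI : IsGalois k (Acl k Ω) := by
    haveI : IsAlgClosure k (Acl k Ω) := inferInstance
    exact ⟨⟩
  obtain ⟨E0, hE0⟩ := D.fin x
  let W : Subgroup (GG k Ω) :=
    { carrier := {g | D.s g x = x}
      mul_mem' := by
        intro g h hg hh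
        have hg' : D.s g x = x := hg
        have hh' : D.s h x = x := hh
        show D.s (g * h) x = x
        rw [map_mul, AlgEquiv.mul_apply, hh', hg']
      one_mem' := by
        show D.s 1 x = x
        rw [map_one]; rfl
      inv_mem' := by
        intro g hg
        have hg' : D.s g x = x := hg
        show D.s g⁻¹ x = x
        calc D.s g⁻¹ x = D.s g⁻¹ (D.s g x) := by rw [hg']
          _ = (D.s g⁻¹ * D.s g) x := rfl
          _ = x := by rw [← map_mul, inv_mul_cancel, map_one]; rfl }
  have hWo : IsOpen (W : Set (GG k Ω)) := by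
    apply Subgroup.isOpen_mono (H₁ := Stab (E0 : Set (Acl k Ω))) _ (lev_stab_open E0)
    intro g hg
    exact hE0 g (fun a ha => hg a ha)
  have hWc : IsCompact ((W : Set (GG k Ω))ᶜ) := hWo.isClosed_compl.isCompact
  have hne : ((W : Set (GG k Ω))ᶜ ∩ ⋂ a : K, lev_C (a : Acl k Ω)) = ∅ := by
    ext g
    constructor
    · rintro ⟨h1, h2⟩
      refine (h1 ?_).elim
      apply hx g
      intro a ha
      have := Set.mem_iInter.1 h2 ⟨a, ha⟩
      exact this
    · intro h
      exact h.elim
  obtain ⟨u, hu⟩ := hWc.elim_finite_subfamily_closed (fun a : K => lev_C (a : Acl k Ω))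
    (fun a => lev_C_closed _) hne
  refine ⟨u.image (fun a : K => (a : Acl k Ω)), ?_, ?_⟩
  · intro a ha
    simp only [Finset.coe_image, Set.mem_image, Finset.mem_coe] at ha
    obtain ⟨b, _, rfl⟩ := ha
    exact b.2
  · intro g hg
    by_contra hcon
    have : g ∈ ((W : Set (GG k Ω))ᶜ ∩ ⋂ a ∈ u, lev_C ((a : K) : Acl k Ω)) := by
      refine ⟨hcon, ?_⟩
      simp only [Set.mem_iInter]
      intro a ha
      exact hg _ (Finset.mem_image.2 ⟨a, ha, rfl⟩)
    rw [hu] at this
    exact this

end

theorem st_LEV : ST_LEV := by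
  classical
  intro F k Ω _ _ _ _ _ _ _ _ _ D x hx
  haveI : CharZero k := charZero_of_injective_algebraMap (algebraMap F k).injective
  obtain ⟨T, hT, hfix⟩ := lev_main D (KS F k Ω) x hx
  refine ⟨T.image (fun a : Acl k Ω => (a : Ω)), ?_, ?_⟩
  · intro a ha
    obtain ⟨b, hb, rfl⟩ := Finset.mem_image.1 ha
    exact hT hb
  · intro g hg
    apply hfix
    intro a ha
    exact hg a (Finset.mem_image.2 ⟨a, ha, rfl⟩)

end Pool.Agent.Helper22.TW
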